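import Pool.Agent.Helper35_RCM.Base
import Pool.Agent.Helper77_RCM.RRB
import Pool.Agent.Helper21_RCA.RNB
import Pool.Agent.Helper5_RCA.OPB
import Pool.Agent.Helper83_RCA.GNB
import Pool.Agent.Helper83_RCA.GLO
import Pool.Agent.Helper29_RCA.HML
import Pool.Agent.Helper29_RCA.CLF
import Pool.Agent.Helper38_RCA.LCR
import Pool.Agent.Helper44_RCA.Sa1
import Pool.Agent.Helper84_RCM.SAF
import Pool.Agent.Helper92_RCA.STP
import Pool.Agent.Helper49_RCA.ITR
import Pool.Agent.Helper81_RCM.END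
import Pool.Agent.Helper90_RCM.ARI
import Pool.Agent.Helper87_RCA.SUP
import Pool.Agent.Helper21_RCM.TRQ
import Pool.Agent.Helper20_RCM.TRA
import Pool.Agent.Helper6_RCM.FIR

/-! Squad RCA: assembly (helper6) -/

set_option autoImplicit false

namespace Pool.Agent.RCM.H6A

open Set Pool.Agent.RCM

universe u

theorem opb_ : OpbStmt.{u} := H5.opb H21A.rnb

theorem gnb_ : GnbStmt.{u} := H83.gnb H21A.rnb opb_

theorem hml_ : HmlStmt.{u} := H29.hml opb_ gnb_

theorem clf_ : ClfStmt.{u} := H29.clf H21A.rnb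

theorem lcr_ : LcrStmt.{u} := H38.lcr H77.rrb H21A.rnb opb_ clf_

theorem saf_ : SafStmt.{u} := H84.saf opb_ H44.sa1

theorem stp_ : StpStmt.{u} := H92.stp H77.rrb

theorem itr_ : ItrStmt.{u} := H49.itr H77.rrb opb_ lcr_ saf_ stp_

theorem end_ : EndStmt.{u} := H81.endR H77.rrb gnb_ H83.glo lcr_ itr_

/-- SUP: every closure with large corank moves many elements, any two matroids -/
theorem sup_ : SupStmt.{u} := H87.sup opb_ gnb_ hml_ end_ H90.ari

/-- the final criterion -/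
theorem fir_ : FirStmt.{u} :=
  H6R.fir H35.asm' H35.lba' H35.bcl' H21.trq H20.tra sup_

/-- FAR: asymptotic full rainbow theorem -/
theorem far_ : FarStmt.{u} := by
  intro ε hε
  obtain ⟨C, hC⟩ := exists_nat_gt (1 / ε)
  obtain ⟨z₀, hz₀⟩ := fir_.{u} C ε hε
  obtain ⟨n₁, hn₁⟩ := exists_nat_gt ((z₀ : ℝ) / ε)
  refine ⟨n₁ + 1, ?_⟩
  intro α M N n S hn hM hN hcard
  have hn0 : 1 ≤ n := by omega
  have hnR : (1 : ℝ) ≤ (n : ℝ) := by exact_mod_cast hn0
  have hz1 : (z₀ : ℝ) < ε * n := by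
    have h1 : (n₁ : ℝ) ≤ n := by
      have : n₁ ≤ n := by omega
      exact_mod_cast this
    have h2 : (z₀ : ℝ) / ε < n := lt_of_lt_of_le hn₁ h1
    rw [div_lt_iff₀ hε] at h2
    linarith [mul_comm (n : ℝ) ε]
  obtain ⟨s, hs⟩ : ∃ s : ℕ, s = ⌈(1 + ε) * (n : ℝ)⌉₊ := ⟨_, rfl⟩
  have hs1 : (1 + ε) * (n : ℝ) ≤ s := by
    rw [hs]
    exact Nat.le_ceil _
  have hsc : ∀ i, s ≤ (S i).card := by
    intro i
    rw [hs]
    exact Nat.ceil_le.2 (hcard i)
  have hsn : n ≤ s := by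
    have h1 : (n : ℝ) ≤ s := by nlinarith
    exact_mod_cast h1
  have hzR : ε * n + 1 ≤ ((s - (n - 1) : ℕ) : ℝ) := by
    have h1 : s - (n - 1) + n = s + 1 := by omega
    have h2 : ((s - (n - 1) : ℕ) : ℝ) + n = s + 1 := by exact_mod_cast h1
    linarith
  have hz2 : ¬ s - (n - 1) < z₀ := by
    intro h
    have h1 : ((s - (n - 1) : ℕ) : ℝ) < z₀ := by exact_mod_cast h
    linarith
  have hCn : n - 1 < C * (s - (n - 1)) := by
    have h1 : 1 < C * ε := by
      rw [div_lt_iff₀ hε] at hC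
      exact hC
    have hC0 : (0 : ℝ) ≤ C := Nat.cast_nonneg C
    have h2 : (n : ℝ) ≤ (C : ℝ) * ((s - (n - 1) : ℕ) : ℝ) := by
      have h3 : (C : ℝ) * (ε * n + 1) ≤ (C : ℝ) * ((s - (n - 1) : ℕ) : ℝ) :=
        mul_le_mul_of_nonneg_left hzR hC0
      have h4 : (n : ℝ) ≤ (C : ℝ) * (ε * n + 1) := by nlinarith
      exact h4.trans h3
    have h3 : n ≤ C * (s - (n - 1)) := by exact_mod_cast h2
    omega
  obtain ⟨J, g, hJ, hg1, hg2, hg3, hg4⟩ := hz₀ α M N n s (n - 1) S _ _ hM hN hsc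
    (Bnc.any) (Bnc.any) (by omega) (Or.inl ⟨by omega, Or.inl (lt_of_lt_of_le (by
      show n - 1 < (if s - (n - 1) < z₀ then 0 else C * (s - (n - 1)))
      rw [if_neg hz2]
      exact hCn) (le_max_right _ _))⟩)
  have hJu : J = Finset.univ := by
    apply Finset.eq_univ_of_card
    rw [Fintype.card_fin]
    have h1 := J.card_le_univ
    rw [Fintype.card_fin] at h1
    omega
  subst hJu
  rw [Finset.coe_univ, image_univ] at hg3 hg4
  rw [Finset.coe_univ, injOn_univ] at hg2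
  exact ⟨g, fun i => hg1 i (Finset.mem_univ i), hg2, hg3, hg4⟩

end Pool.Agent.RCM.H6A
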